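import Pool.Agent.helper57.DH.SpecL

/-!
# d2:LSM: sums of minima
-/

set_option autoImplicit false

open Filter Topology MeasureTheory
open scoped commutatorElement

namespace Pool.Agent.helper90.DH

open Pool.Agent.helper64.D2

theorem LSM_ind (μ C : ℝ) (hμ : 0 ≤ μ) (m M : ℕ) :
    ∑ j ∈ Finset.range M, min μ (C / 2 ^ j) ≤ (min M m : ℕ) * μ + (2 * C / 2 ^ m - 2 * C / 2 ^ (max M m)) := by
  induction M with
  | zero => simp
  | succ M ih =>
    rw [Finset.sum_range_succ]
    rcases Nat.lt_or_ge M m with h | h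
    · rw [min_eq_left h.le, max_eq_right h.le] at ih
      rw [min_eq_left (Nat.succ_le_of_lt h), max_eq_right (Nat.succ_le_of_lt h)]
      have h1 : min μ (C / 2 ^ M) ≤ μ := min_le_left _ _
      push_cast
      linarith
    · rw [min_eq_right h, max_eq_left h] at ih
      rw [min_eq_right (h.trans (Nat.le_succ M)), max_eq_left (h.trans (Nat.le_succ M))]
      have h1 : min μ (C / 2 ^ M) ≤ C / 2 ^ M := min_le_right _ _
      have h2 : 2 * C / 2 ^ (M + 1) = C / 2 ^ M := by
        rw [pow_succ]; field_simp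
      have h3 : 2 * C / 2 ^ M = C / 2 ^ M + C / 2 ^ M := by ring
      rw [h2]
      rw [h3] at ih
      linarith

theorem LSM_four (μ C : ℝ) (M : ℕ) :
    ∑ k ∈ Finset.range (4 * M), min μ (C / 2 ^ (k / 4)) = 4 * ∑ j ∈ Finset.range M, min μ (C / 2 ^ j) := by
  induction M with
  | zero => simp
  | succ M ih =>
    have h : 4 * (M + 1) = 4 * M + 1 + 1 + 1 + 1 := by ring
    rw [h, Finset.sum_range_succ, Finset.sum_range_succ, Finset.sum_range_succ, Finset.sum_range_succ, ih,
      Finset.sum_range_succ]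
    have e0 : (4 * M) / 4 = M := by omega
    have e1 : (4 * M + 1) / 4 = M := by omega
    have e2 : (4 * M + 1 + 1) / 4 = M := by omega
    have e3 : (4 * M + 1 + 1 + 1) / 4 = M := by omega
    rw [e0, e1, e2, e3]
    ring

theorem LSM_gen (μ C : ℝ) (n : ℕ) (hμ : 0 < μ) (hμ1 : μ ≤ 1) (hC : 1 ≤ C) :
    ∑ k ∈ Finset.range n, min μ (C / 2 ^ (k / 4)) ≤ 16 * C * μ * (1 + Real.log (1 / μ)) := by
  have hL : 0 ≤ Real.log (1 / μ) := Real.log_nonneg (by rw [one_le_div hμ]; exact hμ1)
  set L : ℝ := Real.log (1 / μ) with hLd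
  have hl2 : (1 : ℝ) / 2 < Real.log 2 := by
    have := Real.log_two_gt_d9
    norm_num at this ⊢
    linarith
  obtain ⟨m, hm1, hm2⟩ : ∃ m : ℕ, L ≤ m * Real.log 2 ∧ (m : ℝ) ≤ 2 * L + 1 := by
    refine ⟨⌈L / Real.log 2⌉₊, ?_, ?_⟩
    · have h1 := Nat.le_ceil (L / Real.log 2)
      rwa [div_le_iff₀ (by linarith)] at h1
    · have h1 := (Nat.ceil_lt_add_one (a := L / Real.log 2) (by positivity)).le
      have h2 : L / Real.log 2 ≤ 2 * L := by
        rw [div_le_iff₀ (by linarith)]
        nlinarith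
      linarith
  have hpow : 1 / μ ≤ 2 ^ m := by
    rw [← Real.log_le_log_iff (by positivity) (by positivity), Real.log_pow]
    exact hm1
  have hinv : 2 * C / 2 ^ m ≤ 2 * C * μ := by
    rw [div_le_iff₀ (by positivity)]
    have h1 : 1 ≤ μ * 2 ^ m := by
      rw [div_le_iff₀ hμ] at hpow
      linarith
    nlinarith
  have hnn : ∀ k : ℕ, 0 ≤ min μ (C / 2 ^ (k / 4)) := fun k => le_min hμ.le (by positivity)
  calc ∑ k ∈ Finset.range n, min μ (C / 2 ^ (k / 4)) ≤ ∑ k ∈ Finset.range (4 * n), min μ (C / 2 ^ (k / 4)) := by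
        refine Finset.sum_le_sum_of_subset_of_nonneg ?_ (fun k _ _ => hnn k)
        intro k hk
        rw [Finset.mem_range] at hk ⊢
        omega
    _ = 4 * ∑ j ∈ Finset.range n, min μ (C / 2 ^ j) := LSM_four μ C n
    _ ≤ 4 * ((min n m : ℕ) * μ + (2 * C / 2 ^ m - 2 * C / 2 ^ (max n m))) :=
        mul_le_mul_of_nonneg_left (LSM_ind μ C hμ.le m n) (by norm_num)
    _ ≤ 4 * ((m : ℝ) * μ + 2 * C * μ) := by
        have h1 : ((min n m : ℕ) : ℝ) ≤ m := by exact_mod_cast min_le_right n m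
        have h2 : 0 ≤ 2 * C / 2 ^ (max n m) := by positivity
        have h3 : ((min n m : ℕ) : ℝ) * μ ≤ m * μ := mul_le_mul_of_nonneg_right h1 hμ.le
        linarith
    _ ≤ 16 * C * μ * (1 + L) := by
        have h1 : (m : ℝ) * μ ≤ (2 * L + 1) * μ := mul_le_mul_of_nonneg_right hm2 hμ.le
        have h2 : 0 ≤ μ * L := mul_nonneg hμ.le hL
        have h3 : 0 ≤ (C - 1) * (μ * L) := mul_nonneg (by linarith) h2
        have h4 : 0 ≤ (C - 1) * μ := mul_nonneg (by linarith) hμ.le
        nlinarith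

theorem LSM : LSM_stmt := by
  intro C hC
  refine ⟨32 * C, by linarith, ?_⟩
  intro lam n hlam hlam1
  have hL : 0 ≤ Real.log (1 / lam) := Real.log_nonneg (by rw [one_le_div hlam]; linarith)
  constructor
  · refine (LSM_gen lam C n hlam (by linarith) hC).trans ?_
    unfold Lg
    have h1 : 0 ≤ C * lam * (1 + Real.log (1 / lam)) := by positivity
    nlinarith
  · refine (LSM_gen (lam ^ 2) C n (by positivity) (by nlinarith) hC).trans ?_
    unfold Lg
    have h1 : Real.log (1 / lam ^ 2) = 2 * Real.log (1 / lam) := by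
      rw [← one_div_pow, Real.log_pow]
      norm_num
    rw [h1]
    have h2 : 0 ≤ C * lam ^ 2 := by positivity
    nlinarith

end Pool.Agent.helper90.DH
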